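import Pool.Agent.J4H28.F2

/-!
MP_26d9ad_nt, Q1: integral points on generic pairs in projective space: the conjecture is true for
all generic pairs of dimension at least two.

Let `K` be an algebraically closed field of characteristic `0`, and let `k` be a field contained in
`K`. Let `F_a`, for `a` in a finite set `A`, be forms of degrees `d_a > 0` in `n + 1` variables over
`K` such that the ratios of the coefficients of `F_a` to one of them are, for all `a` together,
algebraically independent over `k`. Let `C` be a proper subset of `A`. Let `V` be the complete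
intersection `F_c = 0`, `c ∈ C`, in projective space of dimension `n` (which is all of projective
space for empty `C`), let `D` be the union of the hypersurfaces `F_b = 0`, `b ∉ C`, and let
`U = V ∖ D`. Suppose that `V` is of dimension `n - |C| ≥ 2` and that no equation of `V` is linear
(linear equations can be eliminated; pairs of dimension one are classical). Then:
(1) if all closed subvarieties of `U` of positive dimension are of log general type, then `U` has
    only finitely many points over every finitely generated subring `R` of `K` (over the integers).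
    So the conjecture is true for `U`;
(2) `U` has only finitely many points over every finitely generated ring if and only if no line
    contained in `V` meets `D` in at most two points, if and only if `2 n + 1 ≤ ∑ d_a + |C|` or
    `2 n - 1 ≤ ∑_{c ∈ C} (d_c + 1)`;
(3) if the coefficients of the `F_a` (not only their ratios) are algebraically independent over `k`,
    then `U` has only finitely many points over every finitely generated ring if and only if all
    closed subvarieties of `U` of positive dimension are of log general type.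

The points over `R` of the complement of `F_b = 0` are the points for which all quotients of
monomials of degree `d_b` by `F_b` are in `R`.

For the subvarieties, `L` is the function field of the subvariety, or a finite extension of it, `w`
is its dimension, and `x` is its generic point, in homogeneous coordinates. A prime divisor `Q` over
the closure of the subvariety has its centre outside `U` if
`d_b min_i ord_Q (x_i) < ord_Q (F_b (x))` for some `b` not in `C`; `pord Q x` is the minimum of the
orders `ord_Q (x_i)`.
-/

set_option autoImplicit false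

namespace Pool.Agent.Results.MP_26d9ad_nt.AllGenericPairs

open MvPolynomial FF Pool.Agent.W603.PV Pool.Agent.W602.GT Pool.Agent.TH145.MG
open LinearAlgebra.Projectivization

/-- The points over the ring `R` of the complement of the hypersurfaces `F b = 0`, `b ∉ C`, in the
closed subset `F c = 0`, `c ∈ C`, of projective space. -/
def IntegralPoints {K A : Type} [Field K] {n : ℕ} (F : A → MvPolynomial (Fin (n + 1)) K)
    (d : A → ℕ) (C : Finset A) (R : Subring K) : Set (ℙ K (Fin (n + 1) → K)) :=
  {p | (∀ c ∈ C, eval p.rep (F c) = 0) ∧ ∀ b, b ∉ C → eval p.rep (F b) ≠ 0 ∧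
    ∀ I : Fin (n + 1) →₀ ℕ, I.degree = d b → (∏ i, p.rep i ^ I i) / eval p.rep (F b) ∈ R}

/-- A line, given by a vector space of dimension two, that is contained in `F c = 0` for all `c` in
`C`. -/
def IsLine {K A : Type} [Field K] {n : ℕ} (F : A → MvPolynomial (Fin (n + 1)) K) (C : Finset A)
    (W : Submodule K (Fin (n + 1) → K)) : Prop :=
  Module.finrank K W = 2 ∧ ∀ c ∈ C, ∀ v ∈ W, eval v (F c) = 0

/-- The points of the line where `F b = 0` for some `b ∉ C`. -/
def Boundary {K A : Type} [Field K] {n : ℕ} (F : A → MvPolynomial (Fin (n + 1)) K) (C : Finset A)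
    (W : Submodule K (Fin (n + 1) → K)) : Set (ℙ K (Fin (n + 1) → K)) :=
  {p | p.rep ∈ W ∧ ∃ b, b ∉ C ∧ eval p.rep (F b) = 0}

/-- The point `x` of projective space is in `F c = 0` for `c ∈ C`, and not in `F b = 0` for the
other `b`. -/
def OnPair {K L A : Type} [Field K] [Field L] [Algebra K L] {n : ℕ}
    (F : A → MvPolynomial (Fin (n + 1)) K) (C : Finset A) (x : Fin (n + 1) → L) : Prop :=
  x ≠ 0 ∧ (∀ c ∈ C, aeval x (F c) = 0) ∧ ∀ b, b ∉ C → aeval x (F b) ≠ 0

/-- `L` is (a finite extension of) the function field, and `x` the generic point, of a closed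
subvariety of dimension `w` of `U`. -/
def Subvariety {K L A : Type} [Field K] [Field L] [Algebra K L] {n : ℕ}
    (F : A → MvPolynomial (Fin (n + 1)) K) (C : Finset A) (w : ℕ) (x : Fin (n + 1) → L) : Prop :=
  OnPair F C x ∧ Algebra.trdeg K L = w ∧ Algebra.IsAlgebraic (coords K x) L

/-- The subvariety with generic point `x` is of log general type. -/
def LogGT {K L A : Type} [Field K] [Field L] [Algebra K L] {n : ℕ}
    (F : A → MvPolynomial (Fin (n + 1)) K) (d : A → ℕ) (C : Finset A) (w : ℕ)
    (x : Fin (n + 1) → L) : Prop :=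
  LogGeneralType K L w fun Q : Place K L =>
    ∃ b, b ∉ C ∧ d b * pord Q x < Q.ord (aeval x (F b))

/-- All closed subvarieties of `U` of positive dimension are of log general type. -/
def AllLogGT {K A : Type} [Field K] {n : ℕ} (F : A → MvPolynomial (Fin (n + 1)) K) (d : A → ℕ)
    (C : Finset A) : Prop :=
  ∀ (L : Type) [Field L] [Algebra K L] (w : ℕ) (x : Fin (n + 1) → L), 0 < w →
    Subvariety F C w x → LogGT F d C w x

/-- There are only finitely many points over every finitely generated ring. -/
def AllFinite {K A : Type} [Field K] {n : ℕ} (F : A → MvPolynomial (Fin (n + 1)) K) (d : A → ℕ)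
    (C : Finset A) : Prop :=
  ∀ (T : Finset K) (R : Subring K), R ≤ Subring.closure (T : Set K) →
    (IntegralPoints F d C R).Finite

/-- The coefficients of the forms are algebraically independent. -/
def CoeffInd (k : Type) {K A : Type} [Field k] [Field K] [Algebra k K] {n : ℕ}
    (F : A → MvPolynomial (Fin (n + 1)) K) (d : A → ℕ) : Prop :=
  AlgebraicIndependent k fun p : (a : A) × {I : Fin (n + 1) →₀ ℕ // I.degree = d a} =>
    (F p.1).coeff p.2.1

/-- The numerical criterion. -/
theorem num_iff {k K : Type} [Field k] [Field K] [IsAlgClosed K] [CharZero K] [Algebra k K]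
    {n : ℕ} {A : Type} [Fintype A] [DecidableEq A] {d : A → ℕ} (hd0 : ∀ a, 0 < d a)
    (C : Finset A) (hC : C ≠ Finset.univ) (hdim : C.card + 2 ≤ n) (h2 : ∀ c ∈ C, 2 ≤ d c)
    (F : A → MvPolynomial (Fin (n + 1)) K) (hF : ∀ a, (F a).IsHomogeneous (d a))
    (I0 : ∀ a, {I : Fin (n + 1) →₀ ℕ // I.degree = d a}) (h0 : ∀ a, (F a).coeff (I0 a).1 ≠ 0)
    (hgen : AlgebraicIndependent k
      fun p : (a : A) × {I : {I : Fin (n + 1) →₀ ℕ // I.degree = d a} // I ≠ I0 a} =>
        (F p.1).coeff p.2.1.1 / (F p.1).coeff (I0 p.1).1) :
    (∀ W, ¬ (IsLine F C W ∧ (Boundary F C W).encard ≤ 2)) ↔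
      2 * n + 1 ≤ ∑ a, d a + C.card ∨ 2 * n - 1 ≤ ∑ c ∈ C, (d c + 1) := by
  have hC' : ∃ b, b ∉ C := by
    by_contra hcon
    push Not at hcon
    exact hC (Finset.eq_univ_iff_forall.2 hcon)
  rcases Pool.Agent.J4H28.pair_cases hC' hd0 h2 hdim with h | ⟨hCn, hd, hcase, hN⟩
  · exact (Pool.Agent.Y741.class_pairs (by omega) hd0 C hC h F hF I0 h0 hgen).2.1
  · refine ⟨fun _ => Or.inr (by omega), fun _ W hW => ?_⟩
    exact Pool.Agent.Y741.no_line_sub (k := k) C hN hF h0 (Pool.Agent.Y741.ind_flat hgen) W hW.1

theorem result {k K : Type} [Field k] [Field K] [IsAlgClosed K] [CharZero K] [Algebra k K]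
    {n : ℕ} {A : Type} [Fintype A] [DecidableEq A] {d : A → ℕ} (hd0 : ∀ a, 0 < d a)
    -- the equations are `F c = 0` for `c ∈ C`, and the other forms give the boundary
    (C : Finset A) (hC : C ≠ Finset.univ)
    -- the dimension is at least two, and no equation is linear
    (hdim : C.card + 2 ≤ n) (h2 : ∀ c ∈ C, 2 ≤ d c)
    -- the forms; the ratios of their coefficients are algebraically independent over `k`
    (F : A → MvPolynomial (Fin (n + 1)) K) (hF : ∀ a, (F a).IsHomogeneous (d a))
    (I0 : ∀ a, {I : Fin (n + 1) →₀ ℕ // I.degree = d a}) (h0 : ∀ a, (F a).coeff (I0 a).1 ≠ 0)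
    (hgen : AlgebraicIndependent k
      fun p : (a : A) × {I : {I : Fin (n + 1) →₀ ℕ // I.degree = d a} // I ≠ I0 a} =>
        (F p.1).coeff p.2.1.1 / (F p.1).coeff (I0 p.1).1) :
    -- (1) the conjecture
    (AllLogGT F d C → AllFinite F d C) ∧
    -- (2) the exact range of the finiteness
    (AllFinite F d C ↔ ∀ W, IsLine F C W → 2 < (Boundary F C W).encard) ∧
    ((∀ W, IsLine F C W → 2 < (Boundary F C W).encard) ↔
      2 * n + 1 ≤ ∑ a, d a + C.card ∨ 2 * n - 1 ≤ ∑ c ∈ C, (d c + 1)) ∧
    -- (3) the equivalence
    (CoeffInd k F d → (AllFinite F d C ↔ AllLogGT F d C)) := by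
  obtain ⟨h1, h3, h4⟩ := Pool.Agent.J4H28.conj_all hd0 C hC hdim h2 F hF I0 h0 hgen
  have e1 : AllLogGT F d C → Pool.Agent.Y741.StrL F d C 1 := by
    intro h L _ _ w x hw hx _
    exact h L w x hw hx
  have e2 : Pool.Agent.Y741.StrL F d C 1 → AllLogGT F d C := by
    intro h L _ _ w x hw hx
    exact h L w x hw hx (by rw [map_one]; exact one_ne_zero)
  have e3 : (∀ W, IsLine F C W → 2 < (Boundary F C W).encard) ↔
      ∀ W, ¬ (IsLine F C W ∧ (Boundary F C W).encard ≤ 2) := by
    refine forall_congr' fun W => ?_
    rw [not_and, not_le]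
  rw [e3]
  exact ⟨fun h => h1.2 (h3 (e1 h)), h1, num_iff hd0 C hC hdim h2 F hF I0 h0 hgen,
    fun hind => ⟨fun h => e2 (h4 hind (h1.1 h)), fun h => h1.2 (h3 (e1 h))⟩⟩

end Pool.Agent.Results.MP_26d9ad_nt.AllGenericPairs
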