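import Pool.Agent.J4H28.V10

/-!
MP_26d9ad_nt, Q1: all generic complete intersection surfaces of general type (with empty boundary).

Let `K` be an algebraically closed field of characteristic `0`, and let `k` be a field contained in
`K`, with algebraic closure `k'` in `K`. Let `X` be a generic complete intersection surface in
projective space of dimension `n`: it is given by `F_a = 0`, for `a` in a finite set `A` with `n - 2`
elements, for forms `F_a` of degrees `d_a ≥ 2` over `K` such that the ratios of the coefficients of
`F_a` to one of them are, for all `a` together, algebraically independent over `k`. Its canonical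
bundle is `O(∑ d_a - n - 1)`, so it is of general type exactly for `∑ d_a ≥ n + 2`. Suppose that
this is the case. Then:

(1) for each finite set `T`, `X` has only finitely many points with coordinates in the field
    generated by `T` over `k'`; so `X` is Mordellic;
(2) `X` (each of its components) is of general type;
(3) if the coefficients of the `F_a` (not only their ratios) are algebraically independent over `k`,
    or if `∑ d_a ≥ n + 3`, then all closed subvarieties of `X` of positive dimension are of general
    type.

So Q1 holds for `U = X` (over every `B`, as the sections over `B` are rational points over the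
function field of `B`): for independent coefficients, or `∑ d_a ≥ n + 3`, all subvarieties of `X` are
of general type, by (3), and `U(B)` is finite, by (1). The surfaces with canonical bundle `O(1)` are
the surfaces of the types `(5)`, `(2, 4)`, `(3, 3)`, `(2, 2, 3)` and `(2, 2, 2, 2)`. Quintic surfaces
are treated in the starting file `MP_e52354_nt/GenericSurfaces`, and the surfaces with
`∑ d_a ≥ n + 3` in `MP_e52354_nt/GenericCompleteIntersections`; the other types with canonical bundle
`O(1)` are new.

In (2) and (3), `L` is the function field of the subvariety, or a finite extension of it, and `x` is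
its generic point, in homogeneous coordinates.
-/

set_option autoImplicit false

namespace Pool.Agent.Results.MP_26d9ad_nt.AllGenericSurfaces

open MvPolynomial Pool.Agent.W602.GT LinearAlgebra.Projectivization

/-- The points of `F a = 0` (for all `a`) in projective space, with coordinates in `E`. -/
def Points {K A : Type} [Field K] {n : ℕ} (F : A → MvPolynomial (Fin (n + 1)) K)
    (E : Subfield K) : Set (ℙ K (Fin (n + 1) → K)) :=
  {p | (∀ a, eval p.rep (F a) = 0) ∧
    ∃ x : Fin (n + 1) → K, (∀ i, x i ∈ E) ∧ ∃ hx : x ≠ 0, p = Projectivization.mk K x hx}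

/-- `L` is (a finite extension of) the function field, and `x` the generic point, of a closed
subvariety of dimension `w`. -/
def Subvariety {K L A : Type} [Field K] [Field L] [Algebra K L] {n : ℕ}
    (F : A → MvPolynomial (Fin (n + 1)) K) (w : ℕ) (x : Fin (n + 1) → L) : Prop :=
  Algebra.trdeg K L = w ∧ x ≠ 0 ∧ Algebra.IsAlgebraic (coords K x) L ∧ ∀ a, aeval x (F a) = 0

theorem result {k K : Type} [Field k] [Field K] [IsAlgClosed K] [CharZero K] [Algebra k K]
    {n : ℕ} {A : Type} [Fintype A] {d : A → ℕ}
    -- surfaces of general type
    (h2 : ∀ a, 2 ≤ d a) (hdim : Fintype.card A + 2 = n) (hd : n + 2 ≤ ∑ a, d a)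
    -- the forms; the ratios of their coefficients are algebraically independent over `k`
    (F : A → MvPolynomial (Fin (n + 1)) K) (hF : ∀ a, (F a).IsHomogeneous (d a))
    (I0 : ∀ a, {I : Fin (n + 1) →₀ ℕ // I.degree = d a}) (h0 : ∀ a, (F a).coeff (I0 a).1 ≠ 0)
    (hgen : AlgebraicIndependent k
      fun p : (a : A) × {I : {I : Fin (n + 1) →₀ ℕ // I.degree = d a} // I ≠ I0 a} =>
        (F p.1).coeff p.2.1.1 / (F p.1).coeff (I0 p.1).1) :
    -- (1) finiteness of the rational points
    (∀ T : Finset K, (Points F (Subfield.closure (T : Set K))).Finite) ∧
    (∀ T : Finset K, (Points F (IntermediateField.adjoin (algebraicClosure k K)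
        (T : Set K)).toSubfield).Finite) ∧
    -- (2) the surface is of general type
    (∀ (L : Type) [Field L] [Algebra K L] (x : Fin (n + 1) → L),
      Subvariety F 2 x → GeneralType K L 2) ∧
    -- (3) all subvarieties are of general type
    ((AlgebraicIndependent k fun p : (a : A) × {I : Fin (n + 1) →₀ ℕ // I.degree = d a} =>
        (F p.1).coeff p.2.1) ∨ n + 3 ≤ ∑ a, d a →
      ∀ (L : Type) [Field L] [Algebra K L] (w : ℕ) (x : Fin (n + 1) → L), 0 < w →
        Subvariety F w x → GeneralType K L w) := by
  obtain ⟨h1, h3, h4⟩ := Pool.Agent.J4H28.V.surfaces (k := k) h2 hdim hd F hF I0 h0 hgen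
  refine ⟨fun T => (h1 T).subset ?_, h1, fun L _ _ x hx => h3 L x hx.1 hx.2.1 hx.2.2.1 hx.2.2.2,
    fun hor L _ _ w x hw hx => h4 hor L w x hw hx.1 hx.2.1 hx.2.2.1 hx.2.2.2⟩
  rintro p ⟨hp, x, hx, hx0, hpx⟩
  refine ⟨hp, x, fun i => ?_, hx0, hpx⟩
  have h5 : Subfield.closure (T : Set K) ≤ (IntermediateField.adjoin (algebraicClosure k K)
      (T : Set K)).toSubfield := by
    rw [Subfield.closure_le]
    exact IntermediateField.subset_adjoin _ _
  exact h5 (hx i)

end Pool.Agent.Results.MP_26d9ad_nt.AllGenericSurfaces
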