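import Pool.Agent.J4H28.F2

/-!
MP_26d9ad_nt, Q1: integral points on generic log surfaces with log canonical bundle `O(1)`: the
algebraic and the arithmetic special set.

Let `K` be an algebraically closed field of characteristic `0`, and let `k` be a field contained in
`K`, with algebraic closure `k'` in `K`. Let `F_a`, for `a` in a finite set `A`, be forms of degrees
`d_a > 0` in `n + 1` variables over `K` such that the ratios of the coefficients of `F_a` to one of
them are, for all `a` together, algebraically independent over `k`. Let `C` be a proper subset of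
`A`. Let `V` be the complete intersection `F_c = 0`, `c ∈ C`, in projective space of dimension `n`
(which is all of projective space for empty `C`), let `D` be the union of the hypersurfaces
`F_b = 0`, `b ∉ C`, and let `U = V ∖ D`. An exceptional line is a line contained in `V` that meets `D`
in at most two points.

(A) Suppose that `V` is a surface, `|C| = n - 2`, and that `∑ d_a = n + 2`, so the log canonical
bundle of `(V, D)` is `O(1)`. Then:
(1) `U` is of log general type;
(2) if the coefficients of the `F_a` (not only their ratios) are algebraically independent over `k`,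
    then a form `G` vanishes on all exceptional lines if and only if all closed subvarieties of `U`
    of positive dimension that are not contained in `G = 0` are of log general type.

(B) Suppose in addition that there is only one form `F_b` with `b` not in `C` (so `D` is
irreducible) and no equation of `V` is linear, or that `n ≤ 4` and one of the equations of `V` is of
degree two (here `D` can be reducible). For irreducible `D` the types of `(V, D)` are: the plane and
a quartic; surfaces of degree `d = 2, 3, 4` in the space and a section of degree `5 - d`;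
intersections of two quadrics in the space of dimension four and a quadratic section; K3 surfaces
(quartic surfaces, or intersections of hypersurfaces of degrees `2, 3`, or `2, 2, 2`) and a
hyperplane section. Then:
(3) for every finitely generated subring `R` of `K`, all but finitely many of the points of `U` over
    `R` lie on exceptional lines, and every exceptional line contains infinitely many points of `U`
    over some finitely generated ring;
(4) the exceptional lines are contained, outside of `D`, in `H = 0` for a form `H` that does not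
    vanish on all of `U`; so the points of `U` over `R` are, up to finitely many, in a proper closed
    subset of `U` that does not depend on `R`;
(5) for every subring `R` of a finitely generated algebra over `k'`, all but finitely many of the
    points of `U` over `R` lie on exceptional lines or on finitely many other lines and conics
    contained in `V`;
(6) for every form `G`: the points of `U` over every finitely generated ring are, up to finitely
    many, in `G = 0`, if and only if `G` vanishes on all exceptional lines. So the arithmetic special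
    set and the algebraic special set of `U` both are the closure of the union of the exceptional
    lines: of the bitangents and the tangents at the flexes for the plane quartic, of the 27 lines
    for the cubic surface, of the 16 lines for the intersection of two quadrics with a quadratic
    section; and they are empty for the K3 surfaces.

The points over `R` of the complement of `F_b = 0` are the points for which all quotients of
monomials of degree `d_b` by `F_b` are in `R`.

For the subvarieties, `L` is the function field of the subvariety, or a finite extension of it, `w`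
is its dimension, and `x` is its generic point, in homogeneous coordinates. A prime divisor `Q` over
the closure of the subvariety has its centre outside `U` if
`d_b min_i ord_Q (x_i) < ord_Q (F_b (x))` for some `b` not in `C`; `pord Q x` is the minimum of the
orders `ord_Q (x_i)`.
-/

set_option autoImplicit false

namespace Pool.Agent.Results.MP_26d9ad_nt.GenericLogSurfaces

open MvPolynomial FF Pool.Agent.W603.PV Pool.Agent.W602.GT Pool.Agent.TH145.MG
open LinearAlgebra.Projectivization

/-- The points over the ring `R` of the complement of the hypersurfaces `F b = 0`, `b ∉ C`, in the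
closed subset `F c = 0`, `c ∈ C`, of projective space. -/
def IntegralPoints {K A : Type} [Field K] {n : ℕ} (F : A → MvPolynomial (Fin (n + 1)) K)
    (d : A → ℕ) (C : Finset A) (R : Subring K) : Set (ℙ K (Fin (n + 1) → K)) :=
  {p | (∀ c ∈ C, eval p.rep (F c) = 0) ∧ ∀ b, b ∉ C → eval p.rep (F b) ≠ 0 ∧
    ∀ I : Fin (n + 1) →₀ ℕ, I.degree = d b → (∏ i, p.rep i ^ I i) / eval p.rep (F b) ∈ R}

/-- A line, given by a vector space of dimension two, that is contained in `F c = 0` for all `c` in
`C`. -/
def IsLine {K A : Type} [Field K] {n : ℕ} (F : A → MvPolynomial (Fin (n + 1)) K) (C : Finset A)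
    (W : Submodule K (Fin (n + 1) → K)) : Prop :=
  Module.finrank K W = 2 ∧ ∀ c ∈ C, ∀ v ∈ W, eval v (F c) = 0

/-- The points of the line where `F b = 0` for some `b ∉ C`. -/
def Boundary {K A : Type} [Field K] {n : ℕ} (F : A → MvPolynomial (Fin (n + 1)) K) (C : Finset A)
    (W : Submodule K (Fin (n + 1) → K)) : Set (ℙ K (Fin (n + 1) → K)) :=
  {p | p.rep ∈ W ∧ ∃ b, b ∉ C ∧ eval p.rep (F b) = 0}

/-- A line contained in `F c = 0` for all `c` in `C` that meets the union of the hypersurfaces
`F b = 0`, `b ∉ C`, in at most two points. -/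
def Exceptional {K A : Type} [Field K] {n : ℕ} (F : A → MvPolynomial (Fin (n + 1)) K)
    (C : Finset A) (W : Submodule K (Fin (n + 1) → K)) : Prop :=
  IsLine F C W ∧ (Boundary F C W).encard ≤ 2

/-- The cone over the conic with the parametrisation `(s, t) ↦ s ^ 2 u 0 + s t u 1 + t ^ 2 u 2`. -/
def OnConic {K : Type} [Field K] {n : ℕ} (u : Fin 3 → Fin (n + 1) → K) (v : Fin (n + 1) → K) :
    Prop :=
  ∃ r s t : K, v = r • (s ^ 2 • u 0 + (s * t) • u 1 + t ^ 2 • u 2)

/-- A conic, given by three independent vectors, that is contained in `F c = 0` for all `c` in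
`C`. -/
def IsConic {K A : Type} [Field K] {n : ℕ} (F : A → MvPolynomial (Fin (n + 1)) K) (C : Finset A)
    (u : Fin 3 → Fin (n + 1) → K) : Prop :=
  LinearIndependent K u ∧ ∀ c ∈ C, ∀ v, OnConic u v → eval v (F c) = 0

/-- Over every finitely generated ring, there are only finitely many points outside of `G = 0`. -/
def FiniteOutside {K A : Type} [Field K] {n : ℕ} (F : A → MvPolynomial (Fin (n + 1)) K)
    (d : A → ℕ) (C : Finset A) (G : MvPolynomial (Fin (n + 1)) K) : Prop :=
  ∀ (T : Finset K) (R : Subring K), R ≤ Subring.closure (T : Set K) →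
    {p | p ∈ IntegralPoints F d C R ∧ eval p.rep G ≠ 0}.Finite

/-- The point `x` of projective space is in `F c = 0` for `c ∈ C`, and not in `F b = 0` for the
other `b`. -/
def OnPair {K L A : Type} [Field K] [Field L] [Algebra K L] {n : ℕ}
    (F : A → MvPolynomial (Fin (n + 1)) K) (C : Finset A) (x : Fin (n + 1) → L) : Prop :=
  x ≠ 0 ∧ (∀ c ∈ C, aeval x (F c) = 0) ∧ ∀ b, b ∉ C → aeval x (F b) ≠ 0

/-- `L` is (a finite extension of) the function field, and `x` the generic point, of a closed
subvariety of dimension `w` of `U`. -/
def Subvariety {K L A : Type} [Field K] [Field L] [Algebra K L] {n : ℕ}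
    (F : A → MvPolynomial (Fin (n + 1)) K) (C : Finset A) (w : ℕ) (x : Fin (n + 1) → L) : Prop :=
  OnPair F C x ∧ Algebra.trdeg K L = w ∧ Algebra.IsAlgebraic (coords K x) L

/-- The subvariety with generic point `x` is of log general type. -/
def LogGT {K L A : Type} [Field K] [Field L] [Algebra K L] {n : ℕ}
    (F : A → MvPolynomial (Fin (n + 1)) K) (d : A → ℕ) (C : Finset A) (w : ℕ)
    (x : Fin (n + 1) → L) : Prop :=
  LogGeneralType K L w fun Q : Place K L =>
    ∃ b, b ∉ C ∧ d b * pord Q x < Q.ord (aeval x (F b))

/-- All closed subvarieties of positive dimension that are not contained in `G = 0` are of log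
general type. -/
def LogGTOutside {K A : Type} [Field K] {n : ℕ} (F : A → MvPolynomial (Fin (n + 1)) K)
    (d : A → ℕ) (C : Finset A) (G : MvPolynomial (Fin (n + 1)) K) : Prop :=
  ∀ (L : Type) [Field L] [Algebra K L] (w : ℕ) (x : Fin (n + 1) → L), 0 < w →
    Subvariety F C w x → aeval x G ≠ 0 → LogGT F d C w x

/-- The coefficients of the forms are algebraically independent. -/
def CoeffInd (k : Type) {K A : Type} [Field k] [Field K] [Algebra k K] {n : ℕ}
    (F : A → MvPolynomial (Fin (n + 1)) K) (d : A → ℕ) : Prop :=
  AlgebraicIndependent k fun p : (a : A) × {I : Fin (n + 1) →₀ ℕ // I.degree = d a} =>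
    (F p.1).coeff p.2.1

/-- The statements (3) to (6). -/
def SpecialSet (k : Type) {K : Type} {A : Type} [Field k] [Field K] [Algebra k K] {n : ℕ}
    (F : A → MvPolynomial (Fin (n + 1)) K) (d : A → ℕ) (C : Finset A) : Prop :=
  -- (3) the points over finitely generated rings
  ((∀ (T : Finset K) (R : Subring K), R ≤ Subring.closure (T : Set K) →
      {p | p ∈ IntegralPoints F d C R ∧ ¬ ∃ W, Exceptional F C W ∧ p.rep ∈ W}.Finite) ∧
    ∀ W, Exceptional F C W → ∃ T : Finset K,
      {p | p ∈ IntegralPoints F d C (Subring.closure (T : Set K)) ∧ p.rep ∈ W}.Infinite) ∧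
  -- (4) the exceptional lines are contained in a proper closed subset
  (∃ (H : MvPolynomial (Fin (n + 1)) K) (e : ℕ), H.IsHomogeneous e ∧
    (∃ v, (∀ c ∈ C, eval v (F c) = 0) ∧ (∀ b, b ∉ C → eval v (F b) ≠ 0) ∧ eval v H ≠ 0) ∧
    ∀ W, Exceptional F C W → ∀ v ∈ W, (∀ b, b ∉ C → eval v (F b) ≠ 0) → eval v H = 0) ∧
  -- (5) the points over the subrings of finitely generated algebras over the algebraic closure
  -- of `k`
  (∀ (T : Finset K) (R : Subring K),
    R ≤ Subring.closure ((algebraicClosure k K : Set K) ∪ (T : Set K)) →
    ∃ (L : Set (Submodule K (Fin (n + 1) → K))) (Q : Set (Fin 3 → Fin (n + 1) → K)),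
      L.Finite ∧ Q.Finite ∧ (∀ W ∈ L, IsLine F C W) ∧ (∀ u ∈ Q, IsConic F C u) ∧
      {p | p ∈ IntegralPoints F d C R ∧ (¬ ∃ W, (Exceptional F C W ∨ W ∈ L) ∧ p.rep ∈ W) ∧
        ¬ ∃ u ∈ Q, OnConic u p.rep}.Finite) ∧
  -- (6) the arithmetic special set is the closure of the union of the exceptional lines
  ∀ (G : MvPolynomial (Fin (n + 1)) K) (e : ℕ), G.IsHomogeneous e →
    ((∀ W, Exceptional F C W → ∀ v ∈ W, eval v G = 0) ↔ FiniteOutside F d C G)

theorem ndg_iff {K : Type} [Field K] {n : ℕ} {ψ : Fin (n + 1) → Fin 3 → K}
    (h : Pool.Agent.J4H28.Ndg ψ) : LinearIndependent K fun i l => ψ l i := by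
  rw [Fintype.linearIndependent_iff]
  intro g hg i
  refine congrFun (h g fun l => ?_) i
  have h1 := congrFun hg l
  rw [Finset.sum_apply] at h1
  simpa [mul_comm] using h1

theorem onConic_iff {K : Type} [Field K] {n : ℕ} {ψ : Fin (n + 1) → Fin 3 → K}
    {v : Fin (n + 1) → K} : OnConic (fun i l => ψ l i) v ↔ v ∈ Pool.Agent.J4H28.Cone ψ := by
  constructor
  · rintro ⟨r, s, t, rfl⟩
    refine ⟨r, ![s, t], ?_⟩
    funext l
    simp only [Pool.Agent.J4H28.cv, Pi.smul_apply, Pi.add_apply, smul_eq_mul,
      Matrix.cons_val_zero, Matrix.cons_val_one]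
    ring
  · rintro ⟨r, s, rfl⟩
    refine ⟨r, s 0, s 1, ?_⟩
    funext l
    simp only [Pool.Agent.J4H28.cv, Pi.smul_apply, Pi.add_apply, smul_eq_mul,
      Matrix.cons_val_zero, Matrix.cons_val_one]
    ring

theorem result {k K : Type} [Field k] [Field K] [IsAlgClosed K] [CharZero K] [Algebra k K]
    {n : ℕ} {A : Type} [Fintype A] [DecidableEq A] {d : A → ℕ} (hd0 : ∀ a, 0 < d a)
    -- the equations are `F c = 0` for `c ∈ C`, and the other forms give the boundary
    (C : Finset A) (hC : C ≠ Finset.univ)
    -- surfaces with log canonical bundle `O(1)`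
    (hdim : C.card + 2 = n) (hd : ∑ a, d a = n + 2)
    -- the forms; the ratios of their coefficients are algebraically independent over `k`
    (F : A → MvPolynomial (Fin (n + 1)) K) (hF : ∀ a, (F a).IsHomogeneous (d a))
    (I0 : ∀ a, {I : Fin (n + 1) →₀ ℕ // I.degree = d a}) (h0 : ∀ a, (F a).coeff (I0 a).1 ≠ 0)
    (hgen : AlgebraicIndependent k
      fun p : (a : A) × {I : {I : Fin (n + 1) →₀ ℕ // I.degree = d a} // I ≠ I0 a} =>
        (F p.1).coeff p.2.1.1 / (F p.1).coeff (I0 p.1).1) :
    -- (A) (1) the surface is of log general type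
    (∀ (L : Type) [Field L] [Algebra K L] (x : Fin (n + 1) → L),
      Subvariety F C 2 x → LogGT F d C 2 x) ∧
    -- (2) the algebraic special set
    (CoeffInd k F d → ∀ (G : MvPolynomial (Fin (n + 1)) K) (e : ℕ), G.IsHomogeneous e →
      ((∀ W, Exceptional F C W → ∀ v ∈ W, eval v G = 0) ↔ LogGTOutside F d C G)) ∧
    -- (B) the arithmetic special set
    ((n ≤ 4 ∧ ∃ c ∈ C, d c = 2) ∨ ((∀ c ∈ C, 2 ≤ d c) ∧ Fintype.card A = C.card + 1) →
      SpecialSet k F d C) := by
  have hC' : ∃ b, b ∉ C := by
    by_contra hcon
    push Not at hcon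
    exact hC (Finset.eq_univ_iff_forall.2 hcon)
  refine ⟨fun L _ _ x hx => ?_, fun hind G e hG => ?_, fun hcase => ?_⟩
  · exact Pool.Agent.Y741.log_sub (by norm_num) C (by omega) F hF _ h0
      (Pool.Agent.J4H28.ind_of_gen (C := C) I0 hgen) hx.2.1 hx.1.1 hx.2.2 hx.1.2.1 hx.1.2.2
  · exact (Pool.Agent.J4H28.strL_iffb (k0 := k) (by omega) hd0 hF hind hC' hd hdim hG).symm
  · have hcase' : Pool.Agent.J4H28.Cse n d C := hcase
    obtain ⟨h1, h2, h3, h4, h5⟩ := Pool.Agent.J4H28.generic_surfaces hd0 C hC hcase' hd hdim F hF I0
      h0 hgen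
    refine ⟨⟨h1, h2⟩, h3, fun T R hR => ?_, fun G e hG =>
      Pool.Agent.J4H28.arith_iff2 hd0 C hC hcase' hd hdim F hF I0 h0 hgen hG⟩
    obtain ⟨L, Q, hL, hQ, hL1, hQ1, hfin⟩ := h4 T R hR
    refine ⟨L, (fun ψ i l => ψ l i) '' Q, hL, hQ.image _, hL1, ?_, hfin.subset ?_⟩
    · rintro u ⟨ψ, hψ, rfl⟩
      exact ⟨ndg_iff (hQ1 ψ hψ).1, fun c hc v hv => (hQ1 ψ hψ).2 c hc v (onConic_iff.1 hv)⟩
    · rintro p ⟨hp, hp1, hp2⟩
      refine ⟨hp, hp1, ?_⟩
      rintro ⟨ψ, hψ, h6⟩
      exact hp2 ⟨_, ⟨ψ, hψ, rfl⟩, onConic_iff.2 h6⟩

end Pool.Agent.Results.MP_26d9ad_nt.GenericLogSurfaces
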