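import Pool.Agent.J4H27.LV2.R4

/-!
# Integral points on non-minimal Weierstrass models of a constant elliptic curve

Let `E : y² = x³ + a x + b` be an elliptic curve over a number field `K`, `S` a finite set of finite
places and `g 0, …, g (r - 1) ∈ K[T]` polynomials, none of the form `c T ^ n`. Put
`G(u) = ∏ i, g i (u i)` and let `U` be the variety of dimension `r + 1`

`u 0, …, u (r - 1)` units, `y² = x³ + a G(u)⁴ x + b G(u)⁶`, `(x, y, G(u)) = 1`,

the smooth locus of a non-minimal Weierstrass model, over the torus `G_m ^ r`, of the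
constant elliptic curve `E`. All but finitely many `S`-integral points of `U` lie on
`G(u) = 0`. Below `z = (u, (x, y))`.
-/

set_option autoImplicit false

open NumberField

theorem Pool.Agent.Results.MP_26d9ad_nt.NonMinimalModels.result
    (K : Type) [Field K] [NumberField K] (a b : K) (hE : 4 * a ^ 3 + 27 * b ^ 2 ≠ 0)
    (S : Finset (FinitePlace K)) (r : ℕ) (g : Fin r → Polynomial K)
    (hg : ∀ i, ∀ (c : K) (n : ℕ), g i ≠ Polynomial.C c * Polynomial.X ^ n) :
    {z : (Fin r → K) × (K × K) |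
      (∀ i, z.1 i ≠ 0 ∧ ∀ v ∉ S, v (z.1 i) = 1) ∧
      (∀ v ∉ S, v z.2.1 ≤ 1 ∧ v z.2.2 ≤ 1) ∧
      z.2.2 ^ 2 = z.2.1 ^ 3 + a * (∏ i, (g i).eval (z.1 i)) ^ 4 * z.2.1 +
        b * (∏ i, (g i).eval (z.1 i)) ^ 6 ∧
      (∀ v ∉ S, 1 ≤ max (max (v z.2.1) (v z.2.2)) (v (∏ i, (g i).eval (z.1 i)))) ∧
      ∏ i, (g i).eval (z.1 i) ≠ 0}.Finite :=
  Pool.Agent.J4H27.LV2.modelsR a b hE S g hg
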